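import Pool.Agent.H879.RV.Defs

/-! Division by a monic polynomial keeps the total degree (helper828, for helper879). -/

set_option autoImplicit false

namespace Pool.Agent.H879.RV

open Polynomial
open Pool.Agent.H350R3.GR (ptI)

variable {K : Type} [Field K]

theorem tdm_zero (r : ℤ) : TD r (0 : K[X][X]) := by
  intro i j h
  simp at h

theorem tdm_sub {r : ℤ} {G H : K[X][X]} (hG : TD r G) (hH : TD r H) : TD r (G - H) := by
  intro i j h
  rw [coeff_sub, coeff_sub] at h
  by_contra hcon
  apply h
  have h1 : (G.coeff i).coeff j = 0 := by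
    by_contra h2
    exact hcon (hG i j h2)
  have h2 : (H.coeff i).coeff j = 0 := by
    by_contra h3
    exact hcon (hH i j h3)
  rw [h1, h2, sub_zero]

theorem tdm_mul {r s : ℤ} {G H : K[X][X]} (hG : TD r G) (hH : TD s H) : TD (r + s) (G * H) := by
  intro i j h
  rw [coeff_mul, finsetSum_coeff] at h
  obtain ⟨p, hp, h1⟩ := Finset.exists_ne_zero_of_sum_ne_zero h
  rw [coeff_mul] at h1
  obtain ⟨q, hq, h2⟩ := Finset.exists_ne_zero_of_sum_ne_zero h1
  have h3 := hG p.1 q.1 (left_ne_zero_of_mul h2)
  have h4 := hH p.2 q.2 (right_ne_zero_of_mul h2)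
  rw [Finset.HasAntidiagonal.mem_antidiagonal] at hp hq
  omega

theorem tdm_C {s : ℤ} {c : K[X]} (hc : ∀ j : ℕ, c.coeff j ≠ 0 → (j : ℤ) ≤ s) :
    TD s (C c : K[X][X]) := by
  intro i j h
  rw [coeff_C] at h
  split_ifs at h with hi
  · subst hi
    have := hc j h
    push_cast
    omega
  · simp at h

theorem tdm_X (k : ℕ) : TD (k : ℤ) (X ^ k : K[X][X]) := by
  intro i j h
  rw [coeff_X_pow] at h
  split_ifs at h with hi
  · subst hi
    rw [coeff_one] at h
    split_ifs at h with hj
    · subst hj
      simp
    · exact absurd rfl h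
  · simp at h

theorem td_mod {F G : K[X][X]} {r : ℤ} (hF : F.Monic) (hF' : TD (F.natDegree : ℤ) F)
    (hG : TD r G) : TD r (G %ₘ F) := by
  have key : ∀ (d : WithBot ℕ) (G : K[X][X]), G.degree = d → TD r G → TD r (G %ₘ F) := by
    intro d
    induction d using WellFoundedLT.induction with
    | ind d ih =>
      intro G hd hG
      by_cases hlt : G.degree < F.degree
      · rw [(Polynomial.modByMonic_eq_self_iff hF).2 hlt]
        exact hG
      · have hle : F.degree ≤ G.degree := not_lt.1 hlt
        have hG0 : G ≠ 0 := by
          rintro rfl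
          rw [degree_zero, le_bot_iff, degree_eq_bot] at hle
          exact hF.ne_zero hle
        have h1 := Polynomial.div_wf_lemma ⟨hle, hG0⟩ hF
        have hnat : F.natDegree ≤ G.natDegree := natDegree_le_natDegree hle
        have h2 : TD r (G - F * (C G.leadingCoeff * X ^ (G.natDegree - F.natDegree))) := by
          apply tdm_sub hG
          have h3 : TD (r - G.natDegree) (C G.leadingCoeff : K[X][X]) := by
            apply tdm_C
            intro j hj
            have := hG G.natDegree j hj
            omega
          have h4 := tdm_mul hF' (tdm_mul h3 (tdm_X (K := K) (G.natDegree - F.natDegree)))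
          have h5 : (F.natDegree : ℤ) + (r - G.natDegree + ((G.natDegree - F.natDegree : ℕ) : ℤ)) = r := by
            rw [Nat.cast_sub hnat]
            ring
          rw [h5] at h4
          exact h4
        have h3 := ih _ (hd ▸ h1) _ rfl h2
        rw [Polynomial.sub_modByMonic, (Polynomial.modByMonic_eq_zero_iff_dvd hF).2 (dvd_mul_right _ _),
          sub_zero] at h3
        exact h3
  exact key _ G rfl hG

end Pool.Agent.H879.RV
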